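import Pool.Agent.Lib_helper33.ASM.Stmts

/-!
# Module GOOD, part (b): mixed content outside the annulus
-/

set_option autoImplicit false
set_option linter.unusedSectionVars false
set_option linter.unusedVariables false

open scoped BigOperators

namespace Pool.Agent.Lib_helper33.ASM

variable {d : ℕ} {p : ℝ}

/-- the set where the two matchings agree -/
def g97Ann (𝓜 : Model d) (o : Sp d) (k : ℕ) : Set 𝓜.ι :=
  {z | (2 : ℝ) ^ (10 * k) / 40 ≤ dist (𝓜.x z) o ∧ dist (𝓜.x z) o ≤ 8 * 2 ^ (10 * k)}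

lemma g97_gd_mix (𝓜 : Model d) (e : Sp d) (he : ‖e‖ = 1) {l k : ℕ} (hl : 7 ≤ l) (η lam : ℝ)
    (ha : 0 < 𝓜.a) (o : Sp d) (ω β : Cfg 𝓜.ι)
    (h : Agree 𝓜.x (mix (Ann 𝓜 o k) ω β) ω (g97Ann 𝓜 o k) (2 ^ (10 * k) / 2 ^ l))
    (hG : Gd 𝓜 e l η lam o k ω) : Gd 𝓜 e l η lam o k (mix (Ann 𝓜 o k) ω β) := by
  set s : ℝ := 2 ^ (10 * k) with hs
  set r : ℝ := s / 2 ^ l with hr
  have hs0 : 0 < s := by positivity
  have hr0 : 0 < r := by positivity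
  have hrs : r ≤ s / 128 := by
    rw [hr]
    gcongr
    calc (128 : ℝ) = 2 ^ 7 := by norm_num
      _ ≤ 2 ^ l := pow_le_pow_right₀ (by norm_num) hl
  have hs10 : (2 : ℝ) ^ (10 * (k + 1)) = 1024 * s := by
    rw [hs, mul_add, pow_add]
    norm_num
    ring
  have hnear : ∀ z, s / 25 ≤ dist (𝓜.x z) o → dist (𝓜.x z) o ≤ 4 * s → ∀ k', dist (𝓜.x z) (𝓜.x k') < r →
      k' ∈ g97Ann 𝓜 o k ∧ mix (Ann 𝓜 o k) ω β k' = ω k' := by
    intro z hz1 hz2 k' hk'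
    have h1 := dist_triangle (𝓜.x z) (𝓜.x k') o
    have h2 := dist_triangle (𝓜.x k') (𝓜.x z) o
    rw [dist_comm (𝓜.x k') (𝓜.x z)] at h2
    refine ⟨⟨?_, ?_⟩, ?_⟩
    · rw [← hs]; linarith
    · rw [← hs]; linarith
    · unfold mix
      rw [if_pos]
      refine ⟨?_, ?_⟩
      · rw [← hs]; linarith
      · rw [hs10]; linarith
  have hsph : ∀ (t : ℝ), s / 5 ≤ t → t ≤ s → ∀ z, dist (𝓜.x z) (o + t • e) ≤ s / 50 →
      s / 25 ≤ dist (𝓜.x z) o ∧ dist (𝓜.x z) o ≤ 4 * s := by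
    intro t ht1 ht2 z hz
    have h0 : dist (o + t • e) o = t := by
      rw [dist_eq_norm, add_sub_cancel_left, norm_smul, he, Real.norm_eq_abs,
        abs_of_nonneg (by linarith)]
      ring
    have h1 := dist_triangle (𝓜.x z) (o + t • e) o
    have h2 := dist_triangle (o + t • e) (𝓜.x z) o
    rw [dist_comm (o + t • e) (𝓜.x z)] at h2
    rw [h0] at h1 h2
    constructor <;> linarith
  obtain ⟨g1, g2, g3⟩ := hG
  rw [← hs, ← hr] at g1 g2 g3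
  unfold Gd
  rw [← hs, ← hr]
  refine ⟨g1.trans ?_, g2.trans ?_, le_trans ?_ g3⟩
  · gcongr
    refine cnt_mono fun z hz => ⟨hz.1, ?_⟩
    obtain ⟨h1, h2⟩ := hsph (s / 5) le_rfl (by linarith) z hz.1
    exact (fmr_agree h hr0 (hnear z h1 h2)).2 hz.2
  · gcongr
    refine cnt_mono fun z hz => ⟨hz.1, ?_⟩
    obtain ⟨h1, h2⟩ := hsph (s * 4 / 5) (by linarith) (by linarith) z hz.1
    exact (fmr_agree h hr0 (hnear z h1 h2)).2 hz.2
  · gcongr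
    refine cnt_mono fun z hz => ⟨hz.1, hz.2.1, ?_⟩
    exact (fm_agree h hr0 (hnear z hz.1 hz.2.1)).1 hz.2.2

theorem g97_good_b (hp0 : 0 < p) (hp1 : p < 1) (hLOC : StmtLOC d p) (e : Sp d) (he : ‖e‖ = 1) :
    ∃ C : ℝ, 0 < C ∧ ∀ l : ℕ, 7 ≤ l → ∀ η lam : ℝ, ∀ I : ℕ, Ev d p (fun 𝓜 => ∀ k : ℕ,
      l ≤ 10 * k → k ≤ I → ∀ o : Sp d, ‖o‖ ≤ I → ∀ β : Cfg 𝓜.ι,
      pr 𝓜.a p (fun ω => ¬ Gd 𝓜 e l η lam o k (mix (Ann 𝓜 o k) ω β)) ≤
        pr 𝓜.a p (fun ω => ¬ Gd 𝓜 e l η lam o k ω) + C * (1 / 2) ^ ((d + 2) * (l - 7))) := by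
  obtain ⟨C, hC, hLOC⟩ := hLOC
  refine ⟨C, hC, fun l hl η lam I => ?_⟩
  refine Ev.mono ((Ev.good p 0 0 one_pos).and (hLOC (I + 10 * I + l))) ?_
  rintro 𝓜 ⟨hG, hL⟩ k hlk hkI o ho β
  have hPar := hG.par hp0 hp1
  have ha := hPar.a_pos
  set i : ℕ := 10 * k - l with hi
  have hil : 10 * k = l + i := by omega
  have hr : (2 : ℝ) ^ (10 * k) / 2 ^ l = 2 ^ i := by
    rw [hil, pow_add]
    field_simp
  have h128 : (2 : ℝ) ^ (10 * k) = 128 * 2 ^ (l - 7 + i) := by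
    have : 10 * k = 7 + (l - 7 + i) := by omega
    rw [this, pow_add]
    norm_num
  have hs10 : (2 : ℝ) ^ (10 * (k + 1)) = 1024 * 2 ^ (10 * k) := by
    rw [mul_add, pow_add]
    norm_num
    ring
  have hs0 : (0 : ℝ) < 2 ^ (10 * k) := by positivity
  have hstep : ∀ ω : Cfg 𝓜.ι, ¬ Gd 𝓜 e l η lam o k (mix (Ann 𝓜 o k) ω β) →
      ¬ Gd 𝓜 e l η lam o k ω ∨
        ¬ Agree 𝓜.x (mix (Ann 𝓜 o k) ω β) ω (g97Ann 𝓜 o k) (2 ^ i) := by
    intro ω hω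
    by_contra hn
    rw [not_or, not_not, not_not] at hn
    refine hω (g97_gd_mix 𝓜 e he hl η lam ha o ω β ?_ hn.1)
    rw [hr]
    exact hn.2
  refine (pr_mono hPar hstep).trans ((pr_or_le hPar _ _).trans (add_le_add le_rfl ?_))
  refine hL i (by omega) (l - 7) (by omega) o (ho.trans ?_) _ _ β ?_ ?_
  · push_cast
    have : (0 : ℝ) ≤ 10 * I + l := by positivity
    linarith
  · intro t ht
    refine ht.2.trans (le_of_eq ?_)
    have : 10 + (l - 7) + i = 3 + 10 * k := by omega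
    rw [this, pow_add]
    norm_num
  · intro t ht t' htt'
    have h1 := dist_triangle (𝓜.x t) (𝓜.x t') o
    have h2 := dist_triangle (𝓜.x t') (𝓜.x t) o
    rw [dist_comm (𝓜.x t') (𝓜.x t)] at h2
    have h3 := ht.1
    have h4 := ht.2
    refine ⟨?_, ?_⟩
    · linarith
    · rw [hs10]; linarith

end Pool.Agent.Lib_helper33.ASM
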