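import Pool.Agent.Lib_helper97.ASM.GOODc
import Pool.Agent.Lib_helper97.ASM.GOODb

/-!
# Module GOOD: final theorem
-/

set_option autoImplicit false
set_option linter.unusedSectionVars false
set_option linter.unusedVariables false

open scoped BigOperators

namespace Pool.Agent.Lib_helper33.ASM

variable {d : ℕ} {p : ℝ}

theorem stmtGOOD (hd : 0 < d) (hp0 : 0 < p) (hp1 : p < 1) (hUB : StmtUB d p) (hLB : StmtLB d p)
    (hWT : StmtWT d p) (hLOC : StmtLOC d p) : StmtGOOD d p := by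
  intro e he α hα l₀
  obtain ⟨C, hC, hb⟩ := g97_good_b hp0 hp1 hLOC e he
  obtain ⟨L, hL⟩ := goodA_small C hC.le (ε := α / 2) (by positivity) (q := (1 / 2 : ℝ))
    (by norm_num) (by norm_num)
  obtain ⟨l, k₀, η, lam, hl, hlk, hη, hlam, ha⟩ := good_a hd hp0 hp1 hUB hLB hWT hLOC e he
    (α := α / 2) (by positivity) (l₀ + L + 7)
  refine ⟨l, k₀, η, lam, by omega, hlk, hη, hlam, fun I => ?_⟩
  refine Ev.mono ((ha I).and (hb l (by omega) η lam I)) ?_
  rintro 𝓜 ⟨h1, h2⟩ k hk hkI o ho β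
  refine (h2 k (by omega) hkI o ho β).trans ?_
  have h3 := h1 k hk hkI o ho
  have h4 : C * (1 / 2 : ℝ) ^ ((d + 2) * (l - 7)) ≤ α / 2 := by
    refine hL _ ?_
    have : L ≤ l - 7 := by omega
    nlinarith
  linarith

end Pool.Agent.Lib_helper33.ASM
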