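import Pool.Agent.Lib_helper33.ASM.Stmts

/-!
# Module GOOD, part (a): a scale is good with high probability (no mixing)
-/

set_option autoImplicit false
set_option linter.unusedSectionVars false
set_option linter.unusedVariables false

open scoped BigOperators

namespace Pool.Agent.Lib_helper33.ASM

variable {d : ℕ} {p : ℝ}

/-- free volume for red in the ball of radius `r / 2` around `u` -/
noncomputable def fvol (𝓜 : Model d) (r : ℝ) (u : Sp d) (ω : Cfg 𝓜.ι) : ℝ :=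
  𝓜.a * cnt fun z => dist (𝓜.x z) u ≤ r / 2 ∧ FMR 𝓜.x ω r z

/-- the configuration with only the content of a ball -/
noncomputable def trn (𝓜 : Model d) (u : Sp d) (R : ℝ) (ω : Cfg 𝓜.ι) : Cfg 𝓜.ι :=
  mix {s | dist (𝓜.x s) u < R} ω (fun _ => none)

lemma goodA_mean (hd : 0 < d) (𝓜 : Model d) (hPar : Par 𝓜.a p) {c : ℝ} (hc : 0 < c) (i : ℕ)
    (u : Sp d) (hi : 8 * (d : ℝ) ≤ 2 ^ i)
    (h : ∀ j ∈ cubes u (2 ^ i / 2), c * (1 / 2) ^ (d * i) ≤ cs 𝓜 j (vv p 𝓜 (2 ^ i))) :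
    c * (1 / (2 * d)) ^ d ≤ ex 𝓜.a p (fun ω => 𝓜.a * cnt fun z =>
      dist (𝓜.x z) u ≤ 2 ^ i / 2 ∧ FR 𝓜.x ω (2 ^ i) z) := by
  obtain ⟨J, hJ, hJc, hJs⟩ := exists_inner_cubes hd u (R := 2 ^ i / 2) (by linarith)
  have h1 : ex 𝓜.a p (fun ω => 𝓜.a * cnt fun z =>
      dist (𝓜.x z) u ≤ 2 ^ i / 2 ∧ FR 𝓜.x ω (2 ^ i) z) =
      bs 𝓜 u (2 ^ i / 2) (vv p 𝓜 (2 ^ i)) := by
    rw [ex_mul_left, ex_cnt]
    unfold bs
    congr 1
    refine Finset.sum_congr rfl fun s _ => ?_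
    split_ifs with hs
    · unfold vv
      congr 1
      funext ω
      simp [hs]
    · unfold pr
      have : (fun ω : Cfg 𝓜.ι => ind (dist (𝓜.x s) u ≤ 2 ^ i / 2 ∧ FR 𝓜.x ω (2 ^ i) s)) =
          fun _ => 0 := by
        funext ω
        exact ind_false (fun h => hs h.1)
      rw [this, ex_const]
  rw [h1]
  refine le_trans ?_ (sum_cs_le_bs 𝓜 hPar.a_pos.le u (2 ^ i / 2) (fun s => pr_nonneg hPar _) J hJ)
  have hd' : (d : ℝ) ≠ 0 := by exact_mod_cast hd.ne'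
  calc c * (1 / (2 * d)) ^ d = ((2 : ℝ) ^ i / 2 / d) ^ d * (c * (1 / 2) ^ (d * i)) := by
        rw [mul_comm d i, pow_mul, mul_left_comm, ← mul_pow]
        congr 2
        rw [one_div_pow]
        field_simp
    _ ≤ J.card * (c * (1 / 2) ^ (d * i)) := by gcongr
    _ = ∑ j ∈ J, c * (1 / 2) ^ (d * i) := by simp
    _ ≤ _ := Finset.sum_le_sum fun j hj => h j (hJs hj)

lemma goodA_ball (hd : 0 < d) (hp0 : 0 < p) (hp1 : p < 1) (hUB : StmtUB d p) (hLB : StmtLB d p) :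
    ∃ c0 η : ℝ, 0 < c0 ∧ c0 ≤ 1 ∧ 0 < η ∧ ∀ I : ℕ, Ev d p (fun 𝓜 => ∀ i ≤ I,
      8 * (d : ℝ) ≤ 2 ^ i → ∀ u : Sp d, ‖u‖ ≤ I →
        c0 ≤ pr 𝓜.a p (fun ω => η ≤ fvol 𝓜 (2 ^ i) u ω)) := by
  obtain ⟨C, hC, hUB⟩ := hUB
  obtain ⟨c, hc, hLB⟩ := hLB
  set m : ℝ := c * (1 / (2 * d)) ^ d with hm
  have hm0 : 0 < m := by positivity
  refine ⟨min 1 (m ^ 2 / (4 * C)), m / 2, by positivity, min_le_left _ _, by positivity,
    fun I => ?_⟩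
  refine Ev.mono ((Ev.good p 0 0 one_pos).and ((hUB I).and (hLB (I + 2 ^ I + 1)))) ?_
  rintro 𝓜 ⟨hG, hU, hL⟩ i hi hid u hu
  have hPar := hG.par hp0 hp1
  have ha := hPar.a_pos
  refine (min_le_right _ _).trans ?_
  have hiI : i ≤ I + 2 ^ I + 1 := by
    have := Nat.zero_le (2 ^ I)
    omega
  have h1 := goodA_mean hd 𝓜 hPar hc i u hid (fun j hj => hL i hiI j (fun k => by
    have h2I : (2 : ℝ) ^ i ≤ 2 ^ I := pow_le_pow_right₀ (by norm_num) hi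
    have h0 : (0 : ℝ) < 2 ^ I := by positivity
    have := abs_le_of_mem_cubes hj (B := (I : ℝ) + 2 ^ I + 1) (by linarith) k
    exact_mod_cast this))
  have h2 : ex 𝓜.a p (fun ω => (𝓜.a * cnt fun z =>
      dist (𝓜.x z) u ≤ 2 ^ i / 2 ∧ FR 𝓜.x ω (2 ^ i) z) ^ 2) ≤ C := by
    refine le_trans (ex_mono hPar fun ω => ?_) ((hU i hi).2 u hu)
    have h0 : (0 : ℝ) < 2 ^ i := by positivity
    have := cnt_nonneg (fun z => dist (𝓜.x z) u ≤ 2 ^ i / 2 ∧ FR 𝓜.x ω (2 ^ i) z)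
    gcongr
    exact cnt_mono fun s hs => ⟨hs.1.trans (by linarith), hs.2⟩
  refine (paley_zygmund hPar (fun ω => ?_) hm0 h1 h2).trans
    (pr_mono hPar fun ω h => h.trans ?_)
  · have := cnt_nonneg (fun z => dist (𝓜.x z) u ≤ 2 ^ i / 2 ∧ FR 𝓜.x ω (2 ^ i) z)
    positivity
  · unfold fvol
    gcongr
    exact cnt_mono fun s hs => ⟨hs.1, hs.2.fmr 𝓜.gen⟩

lemma goodA_agree (𝓜 : Model d) (u : Sp d) {R r : ℝ} (hr : 0 < r) (hR : 2 * r < R)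
    (ω : Cfg 𝓜.ι)
    (h : Agree 𝓜.x (trn 𝓜 u R ω) ω {s | dist (𝓜.x s) u ≤ 2 * r} r) :
    fvol 𝓜 r u (trn 𝓜 u R ω) = fvol 𝓜 r u ω := by
  unfold fvol
  congr 2
  funext z
  apply propext
  refine and_congr_right fun hz => fmr_agree h hr fun k hk => ?_
  have h1 : dist (𝓜.x k) u < r + r / 2 := by
    have := dist_triangle (𝓜.x k) (𝓜.x z) u
    rw [dist_comm (𝓜.x k) (𝓜.x z)] at this
    linarith
  refine ⟨by simp only [Set.mem_ofPred_eq]; linarith, ?_⟩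
  unfold trn mix
  rw [if_pos]
  simp only [Set.mem_ofPred_eq]
  linarith

lemma goodA_many (𝓜 : Model d) (hPar : Par 𝓜.a p) (K : ℕ) (u : ℕ → Sp d) {r R η c0 ε : ℝ}
    (hr : 0 < r) (hR : 2 * r < R)
    (hsp : ∀ i < K, ∀ j < K, i ≠ j → 2 * R ≤ dist (u i) (u j))
    (h1 : ∀ i < K, c0 ≤ pr 𝓜.a p (fun ω => η ≤ fvol 𝓜 r (u i) ω))
    (h2 : ∀ i < K, pr 𝓜.a p (fun ω => ¬ Agree 𝓜.x (trn 𝓜 (u i) R ω) ω
      {s | dist (𝓜.x s) (u i) ≤ 2 * r} r) ≤ ε) :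
    pr 𝓜.a p (fun ω => ∀ i < K, ¬ η ≤ fvol 𝓜 r (u i) ω) ≤ (1 - (c0 - ε)) ^ K + K * ε := by
  have hstep : ∀ ω : Cfg 𝓜.ι, (∀ i < K, ¬ η ≤ fvol 𝓜 r (u i) ω) →
      (∀ i ∈ Finset.range K, ¬ η ≤ fvol 𝓜 r (u i) (trn 𝓜 (u i) R ω)) ∨
      (∃ i ∈ Finset.range K, ¬ Agree 𝓜.x (trn 𝓜 (u i) R ω) ω
        {s | dist (𝓜.x s) (u i) ≤ 2 * r} r) := by
    intro ω hω
    by_cases hA : ∃ i ∈ Finset.range K, ¬ Agree 𝓜.x (trn 𝓜 (u i) R ω) ω
        {s | dist (𝓜.x s) (u i) ≤ 2 * r} r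
    · exact Or.inr hA
    · push Not at hA
      refine Or.inl fun i hi => ?_
      rw [goodA_agree 𝓜 (u i) hr hR ω (hA i hi)]
      exact hω i (Finset.mem_range.1 hi)
  refine (pr_mono hPar hstep).trans ((pr_or_le hPar _ _).trans (add_le_add ?_ ?_))
  · rw [pr_indep_finset hPar (Finset.range K) (fun i => {s | dist (𝓜.x s) (u i) < R}) ?_
      (fun i ω => ¬ η ≤ fvol 𝓜 r (u i) (trn 𝓜 (u i) R ω)) ?_]
    · calc ∏ i ∈ Finset.range K, pr 𝓜.a p (fun ω => ¬ η ≤ fvol 𝓜 r (u i) (trn 𝓜 (u i) R ω))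
          ≤ ∏ i ∈ Finset.range K, (1 - (c0 - ε)) := by
            refine Finset.prod_le_prod (fun i _ => pr_nonneg hPar _) fun i hi => ?_
            rw [pr_not]
            have hi' := Finset.mem_range.1 hi
            have h3 : pr 𝓜.a p (fun ω => η ≤ fvol 𝓜 r (u i) ω) ≤
                pr 𝓜.a p (fun ω => η ≤ fvol 𝓜 r (u i) (trn 𝓜 (u i) R ω)) + ε := by
              refine le_trans (pr_mono hPar (B := fun ω =>
                (η ≤ fvol 𝓜 r (u i) (trn 𝓜 (u i) R ω)) ∨ ¬ Agree 𝓜.x (trn 𝓜 (u i) R ω) ω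
                  {s | dist (𝓜.x s) (u i) ≤ 2 * r} r) fun ω hω => ?_)
                ((pr_or_le hPar _ _).trans (add_le_add le_rfl (h2 i hi')))
              by_cases hA : Agree 𝓜.x (trn 𝓜 (u i) R ω) ω {s | dist (𝓜.x s) (u i) ≤ 2 * r} r
              · left
                rw [goodA_agree 𝓜 (u i) hr hR ω hA]
                exact hω
              · exact Or.inr hA
            linarith [h1 i hi']
        _ = (1 - (c0 - ε)) ^ K := by simp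
    · intro i hi j hj hij
      rw [Set.disjoint_left]
      intro s hs hs'
      simp only [Set.mem_ofPred_eq] at hs hs'
      have h3 := hsp i (Finset.mem_range.1 hi) j (Finset.mem_range.1 hj) hij
      have h4 := dist_triangle (u i) (𝓜.x s) (u j)
      rw [dist_comm (u i) (𝓜.x s)] at h4
      linarith
    · intro i hi ω ω' hωω'
      have : trn 𝓜 (u i) R ω = trn 𝓜 (u i) R ω' := by
        unfold trn mix
        funext s
        by_cases hs : s ∈ {s | dist (𝓜.x s) (u i) < R}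
        · simp only [if_pos hs]
          exact hωω' s hs
        · simp only [if_neg hs]
      rw [this]
  · refine (pr_exists_le hPar (Finset.range K) _).trans ?_
    calc _ ≤ ∑ i ∈ Finset.range K, ε := Finset.sum_le_sum fun i hi => h2 i (Finset.mem_range.1 hi)
      _ = K * ε := by simp

lemma goodA_net (𝓜 : Model d) (hPar : Par 𝓜.a p) {C : ℝ} (hC : 0 < C) (m l : ℕ) (o : Sp d)
    {s r : ℝ} (hr : 0 < r) (hs : s = 2 ^ l * r)
    (h : ∀ c : Sp d, dist c o ≤ 4 * s → pr 𝓜.a p (fun ω =>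
      C * m < 𝓜.a * cnt fun z => dist (𝓜.x z) c ≤ 3 * r ∧ FM 𝓜.x ω r z) ≤
        C * (1 / 2) ^ (d * m)) :
    pr 𝓜.a p (fun ω => ¬ 𝓜.a * (cnt fun z => dist (𝓜.x z) o ≤ 4 * s ∧ FM 𝓜.x ω r z) ≤
      (8 * 2 ^ l + 1) ^ d * (C * m)) ≤ (8 * 2 ^ l + 1) ^ d * (C * (1 / 2) ^ (d * m)) := by
  have hs0 : 0 ≤ s := by rw [hs]; positivity
  obtain ⟨N, hN1, hN2, hN3⟩ := exists_net o (R := 4 * s) (ρ := r) hr (by positivity)
  have hcard : (N.card : ℝ) ≤ (8 * 2 ^ l + 1) ^ d := by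
    refine hN3.trans (le_of_eq ?_)
    congr 1
    rw [hs]
    field_simp
    ring
  have ha := hPar.a_pos
  have hstep : ∀ ω : Cfg 𝓜.ι, (¬ 𝓜.a * (cnt fun z => dist (𝓜.x z) o ≤ 4 * s ∧ FM 𝓜.x ω r z) ≤
      (8 * 2 ^ l + 1) ^ d * (C * m)) → ∃ c ∈ N,
        C * m < 𝓜.a * cnt fun z => dist (𝓜.x z) c ≤ 3 * r ∧ FM 𝓜.x ω r z := by
    intro ω hω
    by_contra hn
    push Not at hn
    apply hω
    have h1 : (cnt fun z => dist (𝓜.x z) o ≤ 4 * s ∧ FM 𝓜.x ω r z) ≤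
        cnt fun z => ∃ c ∈ N, dist (𝓜.x z) c ≤ 3 * r ∧ FM 𝓜.x ω r z := by
      refine cnt_mono fun z hz => ?_
      obtain ⟨c, hc, hcz⟩ := hN2 (𝓜.x z) hz.1
      exact ⟨c, hc, by linarith, hz.2⟩
    have h2 := h1.trans (cnt_exists_le N fun c z => dist (𝓜.x z) c ≤ 3 * r ∧ FM 𝓜.x ω r z)
    calc 𝓜.a * (cnt fun z => dist (𝓜.x z) o ≤ 4 * s ∧ FM 𝓜.x ω r z)
        ≤ 𝓜.a * ∑ c ∈ N, cnt fun z => dist (𝓜.x z) c ≤ 3 * r ∧ FM 𝓜.x ω r z := by gcongr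
      _ = ∑ c ∈ N, 𝓜.a * cnt fun z => dist (𝓜.x z) c ≤ 3 * r ∧ FM 𝓜.x ω r z := by
        rw [Finset.mul_sum]
      _ ≤ ∑ c ∈ N, C * m := Finset.sum_le_sum fun c hc => hn c hc
      _ = N.card * (C * m) := by simp
      _ ≤ (8 * 2 ^ l + 1) ^ d * (C * m) := by gcongr
  refine (pr_mono hPar hstep).trans ((pr_exists_le hPar N _).trans ?_)
  calc _ ≤ ∑ c ∈ N, C * (1 / 2 : ℝ) ^ (d * m) := Finset.sum_le_sum fun c hc => h c (hN1 c hc)
    _ = N.card * (C * (1 / 2) ^ (d * m)) := by simp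
    _ ≤ (8 * 2 ^ l + 1) ^ d * (C * (1 / 2) ^ (d * m)) := by gcongr

end Pool.Agent.Lib_helper33.ASM
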