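import Pool.Agent.Lib_helper97.ASM.GOODa

/-!
# Module GOOD, part (a), assembly
-/

set_option autoImplicit false
set_option linter.unusedSectionVars false
set_option linter.unusedVariables false

open scoped BigOperators

namespace Pool.Agent.Lib_helper33.ASM

variable {d : ℕ} {p : ℝ}

lemma goodA_small (C : ℝ) {ε : ℝ} (hC : 0 ≤ C) (hε : 0 < ε) {q : ℝ} (hq0 : 0 ≤ q) (hq1 : q < 1) :
    ∃ L : ℕ, ∀ l, L ≤ l → C * q ^ l ≤ ε := by
  have h1 : Filter.Tendsto (fun l : ℕ => C * q ^ l) Filter.atTop (nhds (C * 0)) :=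
    (tendsto_pow_atTop_nhds_zero_of_lt_one hq0 hq1).const_mul C
  rw [mul_zero] at h1
  obtain ⟨L, hL⟩ := Filter.eventually_atTop.1 (h1.eventually_lt_const hε)
  exact ⟨L, fun l hl => (hL l hl).le⟩

lemma goodA_center (hd : 0 < d) (𝓜 : Model d) (hPar : Par 𝓜.a p) (K : ℕ) (c : Sp d)
    {s r R η c0 ε : ℝ} (hr : 0 < r) (hR : 2 * r < R) (hK : 2 * R * K ≤ s / 100)
    (hrs : r / 2 ≤ s / 100)
    (h1 : ∀ u : Sp d, dist u c ≤ s / 100 → c0 ≤ pr 𝓜.a p (fun ω => η ≤ fvol 𝓜 r u ω))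
    (h2 : ∀ u : Sp d, dist u c ≤ s / 100 →
      pr 𝓜.a p (fun ω => ¬ Agree 𝓜.x (trn 𝓜 u R ω) ω {s | dist (𝓜.x s) u ≤ 2 * r} r) ≤ ε) :
    pr 𝓜.a p (fun ω => ¬ η ≤ 𝓜.a * cnt fun z => dist (𝓜.x z) c ≤ s / 50 ∧ FMR 𝓜.x ω r z) ≤
      (1 - (c0 - ε)) ^ K + K * ε := by
  obtain ⟨u, hu1, hu2⟩ := exists_spaced hd c (ρ := 2 * R) (R := s / 100) (by linarith) K hK
  refine le_trans (pr_mono hPar fun ω hω i hi hη => hω (hη.trans ?_))
    (goodA_many 𝓜 hPar K u hr hR hu2 (fun i hi => h1 (u i) (hu1 i hi))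
      (fun i hi => h2 (u i) (hu1 i hi)))
  have ha := hPar.a_pos
  unfold fvol
  gcongr
  refine cnt_mono fun z hz => ⟨?_, hz.2⟩
  have h3 := dist_triangle (𝓜.x z) (u i) c
  have h4 := hu1 i hi
  have h5 := hz.1
  linarith

theorem good_a (hd : 0 < d) (hp0 : 0 < p) (hp1 : p < 1) (hUB : StmtUB d p) (hLB : StmtLB d p)
    (hWT : StmtWT d p) (hLOC : StmtLOC d p) (e : Sp d) (he : ‖e‖ = 1) {α : ℝ} (hα : 0 < α)
    (l₀ : ℕ) :
    ∃ l k₀ : ℕ, ∃ η lam : ℝ, l₀ ≤ l ∧ l ≤ 10 * k₀ ∧ 0 < η ∧ 0 < lam ∧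
      ∀ I : ℕ, Ev d p (fun 𝓜 => ∀ k, k₀ ≤ k → k ≤ I → ∀ o : Sp d, ‖o‖ ≤ I →
        pr 𝓜.a p (fun ω => ¬ Gd 𝓜 e l η lam o k ω) ≤ α) := by
  obtain ⟨c0, η, hc0, hc01, hη, hball⟩ := goodA_ball hd hp0 hp1 hUB hLB
  obtain ⟨CL, hCL, hLOC⟩ := hLOC
  obtain ⟨CW, hCW, hWT⟩ := hWT
  -- choice of `K`
  obtain ⟨K, hK⟩ : ∃ K : ℕ, (1 - c0 / 2) ^ K ≤ α / 8 := by
    obtain ⟨L, hL⟩ := goodA_small 1 zero_le_one (ε := α / 8) (by positivity) (q := 1 - c0 / 2)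
      (by linarith) (by linarith)
    exact ⟨L, by simpa using hL L le_rfl⟩
  -- choice of `l1`
  obtain ⟨l1, hl1, hl1a, hl1b⟩ : ∃ l1 : ℕ, 3 ≤ l1 ∧
      CL * (1 / 2) ^ ((d + 2) * (l1 - 1)) ≤ c0 / 2 ∧
      K * (CL * (1 / 2) ^ ((d + 2) * (l1 - 1))) ≤ α / 8 := by
    obtain ⟨L, hL⟩ := goodA_small CL hCL.le (ε := c0 / 2) (by positivity) (q := (1 / 2 : ℝ))
      (by norm_num) (by norm_num)
    obtain ⟨L', hL'⟩ := goodA_small (K * CL) (by positivity) (ε := α / 8) (by positivity)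
      (q := (1 / 2 : ℝ)) (by norm_num) (by norm_num)
    have hle : ∀ n : ℕ, n ≤ (d + 2) * n := fun n => by nlinarith
    refine ⟨L + L' + 3, by omega, hL _ ?_, ?_⟩
    · exact le_trans (by omega) (hle _)
    · rw [← mul_assoc]
      exact hL' _ (le_trans (by omega) (hle _))
  set ε : ℝ := CL * (1 / 2) ^ ((d + 2) * (l1 - 1)) with hε
  have hε0 : 0 < ε := by positivity
  -- choice of `l`
  set l : ℕ := l₀ + 8 + (l1 + 1) + 100 * K with hl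
  have hlK : (2 : ℝ) * 2 ^ l1 * K * 100 ≤ 2 ^ l := by
    have h1 : (100 * K : ℝ) ≤ 2 ^ (100 * K) := by
      exact_mod_cast (Nat.lt_two_pow_self (n := 100 * K)).le
    have h2 : (2 : ℝ) ^ l = 2 ^ (l₀ + 8) * (2 * 2 ^ l1 * 2 ^ (100 * K)) := by
      rw [hl]
      ring
    have h3 : (1 : ℝ) ≤ 2 ^ (l₀ + 8) := one_le_pow₀ (by norm_num)
    rw [h2]
    calc (2 : ℝ) * 2 ^ l1 * K * 100 = 2 * 2 ^ l1 * (100 * K) := by ring
      _ ≤ 2 * 2 ^ l1 * 2 ^ (100 * K) := by gcongr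
      _ ≤ 2 ^ (l₀ + 8) * (2 * 2 ^ l1 * 2 ^ (100 * K)) :=
        le_mul_of_one_le_left (by positivity) h3
  have hl8 : (256 : ℝ) ≤ 2 ^ l := by
    calc (256 : ℝ) = 2 ^ 8 := by norm_num
      _ ≤ 2 ^ l := pow_le_pow_right₀ (by norm_num) (by omega)
  -- choice of `m`
  obtain ⟨m, hm1, hm⟩ : ∃ m : ℕ, 1 ≤ m ∧
      (8 * 2 ^ l + 1 : ℝ) ^ d * (CW * (1 / 2) ^ (d * m)) ≤ α / 2 := by
    obtain ⟨L, hL⟩ := goodA_small ((8 * 2 ^ l + 1 : ℝ) ^ d * CW) (by positivity) (ε := α / 2)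
      (by positivity) (q := (1 / 2 : ℝ)) (by norm_num) (by norm_num)
    refine ⟨L + 1, by omega, ?_⟩
    rw [← mul_assoc]
    refine hL _ ?_
    nlinarith
  refine ⟨l, l + d + 3, η, (8 * 2 ^ l + 1) ^ d * (CW * m), by omega, by omega, hη, ?_,
    fun I => ?_⟩
  · have : (0 : ℝ) < m := by exact_mod_cast hm1
    positivity
  set I' : ℕ := I + 4 * 2 ^ (10 * I) + 10 * I + m + l1 with hI'
  refine Ev.mono ((Ev.good p 0 0 one_pos).and ((hball I').and ((hLOC I').and (hWT I')))) ?_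
  rintro 𝓜 ⟨hG, hB, hL, hW⟩ k hk0 hkI o ho
  have hPar := hG.par hp0 hp1
  have ha := hPar.a_pos
  -- scales
  set i : ℕ := 10 * k - l with hi
  have hil : 10 * k = l + i := by omega
  set s : ℝ := 2 ^ (10 * k) with hs
  set r : ℝ := 2 ^ i with hr
  have hr0 : 0 < r := by positivity
  have hsr : s = 2 ^ l * r := by rw [hs, hil, pow_add]
  have hs0 : 0 < s := by positivity
  have hsr' : s / 2 ^ l = r := by rw [hsr]; field_simp
  have hsI : s ≤ 2 ^ (10 * I) := pow_le_pow_right₀ (by norm_num) (by omega)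
  have hiI : i ≤ I' := by rw [hI']; omega
  have hl1I : l1 - 1 ≤ I' := by rw [hI']; omega
  have hmI : m ≤ I' := by rw [hI']; omega
  have hI'r : (I : ℝ) + 4 * 2 ^ (10 * I) ≤ I' := by
    rw [hI']
    push_cast
    have : (0 : ℝ) ≤ 10 * I + m + l1 := by positivity
    linarith
  have hnorm : ∀ c : Sp d, dist c o ≤ 4 * s → ‖c‖ ≤ I' := by
    intro c hc
    have h1 : ‖c‖ ≤ dist c o + ‖o‖ := by
      rw [dist_eq_norm]
      calc ‖c‖ = ‖(c - o) + o‖ := by rw [sub_add_cancel]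
        _ ≤ _ := norm_add_le _ _
    linarith
  -- big radius
  have hd8 : 8 * (d : ℝ) ≤ r := by
    have h1 : (d : ℝ) ≤ 2 ^ d := by exact_mod_cast (Nat.lt_two_pow_self (n := d)).le
    calc 8 * (d : ℝ) ≤ 8 * 2 ^ d := by linarith
      _ = 2 ^ (d + 3) := by ring
      _ ≤ 2 ^ i := pow_le_pow_right₀ (by norm_num) (by omega)
  set R : ℝ := 2 ^ l1 * r with hR
  have h2l1 : (8 : ℝ) ≤ 2 ^ l1 := by
    calc (8 : ℝ) = 2 ^ 3 := by norm_num
      _ ≤ 2 ^ l1 := pow_le_pow_right₀ (by norm_num) hl1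
  have hRr : 2 * r < R := by rw [hR]; nlinarith
  have hKR : 2 * R * K ≤ s / 100 := by
    rw [hR, hsr, le_div_iff₀ (by norm_num)]
    calc 2 * (2 ^ l1 * r) * K * 100 = (2 * 2 ^ l1 * K * 100) * r := by ring
      _ ≤ 2 ^ l * r := by gcongr
  have hrs : r / 2 ≤ s / 100 := by
    rw [hsr]
    nlinarith
  -- one centre
  have hcen : ∀ c : Sp d, dist c o ≤ s → pr 𝓜.a p (fun ω =>
      ¬ η ≤ 𝓜.a * cnt fun z => dist (𝓜.x z) c ≤ s / 50 ∧ FMR 𝓜.x ω r z) ≤ α / 4 := by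
    intro c hc
    have hu : ∀ u : Sp d, dist u c ≤ s / 100 → ‖u‖ ≤ I' := by
      intro u hu
      refine hnorm u ?_
      have := dist_triangle u c o
      linarith
    refine (goodA_center hd 𝓜 hPar K c hr0 hRr hKR hrs (c0 := c0) (ε := ε)
      (fun u hu' => hB i hiI hd8 u (hu u hu')) (fun u hu' => ?_)).trans ?_
    · refine hL i hiI (l1 - 1) hl1I u (hu u hu') _ _ _ ?_ ?_
      · intro t ht
        simp only [Set.mem_ofPred_eq] at ht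
        refine ht.trans ?_
        rw [pow_add, hr]
        have : (2 : ℝ) ≤ 2 ^ (10 + (l1 - 1)) := by
          calc (2 : ℝ) = 2 ^ 1 := by norm_num
            _ ≤ _ := pow_le_pow_right₀ (by norm_num) (by omega)
        gcongr
      · intro t ht t' htt'
        simp only [Set.mem_ofPred_eq] at ht ⊢
        have h3 : (2 : ℝ) ^ (l1 - 1 + i) = R / 2 := by
          rw [hR, hr, pow_add]
          obtain ⟨n, hn⟩ : ∃ n, l1 = n + 1 := ⟨l1 - 1, by omega⟩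
          rw [hn, Nat.add_sub_cancel, pow_succ]
          ring
        rw [h3] at htt'
        have h4 := dist_triangle (𝓜.x t') (𝓜.x t) u
        rw [dist_comm (𝓜.x t') (𝓜.x t)] at h4
        have h5 : 2 * r < R / 2 := by rw [hR]; nlinarith
        linarith
    · have h1 : (1 - (c0 - ε)) ^ K ≤ (1 - c0 / 2) ^ K := by
        apply pow_le_pow_left₀ (by linarith)
        linarith
      linarith
  -- the three conditions
  have hs5 : dist (o + (s / 5 : ℝ) • e) o ≤ s := by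
    rw [dist_eq_norm, add_sub_cancel_left, norm_smul, he, Real.norm_eq_abs,
      abs_of_nonneg (by positivity)]
    linarith
  have hs45 : dist (o + (s * 4 / 5 : ℝ) • e) o ≤ s := by
    rw [dist_eq_norm, add_sub_cancel_left, norm_smul, he, Real.norm_eq_abs,
      abs_of_nonneg (by positivity)]
    linarith
  have hnet := goodA_net 𝓜 hPar hCW m l o hr0 hsr (fun c hc => hW i hiI m hmI hm1 c (hnorm c hc))
  have hstep : ∀ ω : Cfg 𝓜.ι, ¬ Gd 𝓜 e l η ((8 * 2 ^ l + 1) ^ d * (CW * m)) o k ω →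
      (¬ η ≤ 𝓜.a * cnt fun z => dist (𝓜.x z) (o + (s / 5 : ℝ) • e) ≤ s / 50 ∧ FMR 𝓜.x ω r z) ∨
      ((¬ η ≤ 𝓜.a * cnt fun z => dist (𝓜.x z) (o + (s * 4 / 5 : ℝ) • e) ≤ s / 50 ∧
        FMR 𝓜.x ω r z) ∨
      (¬ 𝓜.a * (cnt fun z => dist (𝓜.x z) o ≤ 4 * s ∧ FM 𝓜.x ω r z) ≤
      (8 * 2 ^ l + 1) ^ d * (CW * m))) := by
    intro ω hω
    by_contra hn
    rw [not_or, not_or, not_not, not_not, not_not] at hn
    apply hω
    unfold Gd
    rw [← hs, hsr']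
    refine ⟨hn.1, hn.2.1, le_trans ?_ hn.2.2⟩
    gcongr
    exact cnt_mono fun z hz => ⟨hz.2.1, hz.2.2⟩
  refine (pr_mono hPar hstep).trans ((pr_or_le hPar _ _).trans ?_)
  have h1 := hcen _ hs5
  have h2 := hcen _ hs45
  have h3 := pr_or_le hPar (fun ω : Cfg 𝓜.ι => ¬ η ≤ 𝓜.a * cnt fun z =>
    dist (𝓜.x z) (o + (s * 4 / 5 : ℝ) • e) ≤ s / 50 ∧ FMR 𝓜.x ω r z)
    (fun ω => ¬ 𝓜.a * (cnt fun z => dist (𝓜.x z) o ≤ 4 * s ∧ FM 𝓜.x ω r z) ≤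
      (8 * 2 ^ l + 1) ^ d * (CW * m))
  linarith

end Pool.Agent.Lib_helper33.ASM
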